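import Pool.Agent.Lib.MP_1660ca_co.Final

/-! The number of distributive intervals in the weak order of the symmetric group. -/

namespace Pool.Agent.Results.MP_1660ca_co.DistributiveCount

open Pool.Agent.Lib.MP_1660ca_co

/-- The recurrence `IsSolution` has exactly one solution `A`, and for every `n` the number `d n`
of distributive intervals of the weak order on `n` letters is `A n 0 0 0`. -/
theorem result :
    ∃ A : ℕ → ℕ → ℕ → ℕ → ℕ, IsSolution A ∧ (∀ A', IsSolution A' → A' = A) ∧
      ∀ n, d n = A n 0 0 0 :=
  ⟨A, isSolution_A, fun _ h => isSolution_unique h, d_eq_A⟩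

end Pool.Agent.Results.MP_1660ca_co.DistributiveCount
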